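import Mathlib
import Pool.Agent.Helper43.Gm.Goals
import Pool.Agent.Helper43.Gm.Goals2

/-!
Packet Gm H2 (MP_d3128a_ag): the strip, rows played from the top down to `y = 0`.
-/

set_option autoImplicit false

namespace Pool.Agent.Helper43.Gm.PkH2

open Finset Pool.Agent.Lead.Sh
open Pool.Agent.Helper43.Gm
open Helper18.Tw (Hgt)

theorem hgt_far {f : ℕ → ℕ} {w κ : ℕ} (h : Hgt f w κ) (t : ℕ) : f (w + t) ≤ κ - t := by
  rcases Nat.eq_zero_or_pos (f (w + t)) with h0 | h0
  · omega
  · have h1 := h.far (le_refl w) t h0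
    have h2 := h.le w
    omega

theorem hgt_succ {f : ℕ → ℕ} {w κ : ℕ} (h : Hgt f w κ) (b : ℕ) : f (b + 1) ≤ f b := by
  rcases Nat.lt_or_ge b w with hb | hb
  · rw [h.wall b hb]
    exact h.le _
  · rcases Nat.eq_zero_or_pos (f (b + 1)) with h0 | h0
    · omega
    · exact (h.strict b hb h0).le

theorem hgt_zero {f : ℕ → ℕ} {w κ : ℕ} (h : Hgt f w κ) {y : ℕ} (hy : w + κ ≤ y) : f y = 0 := by
  obtain ⟨t, rfl⟩ := Nat.exists_eq_add_of_le (show w ≤ y by omega)
  have h1 := hgt_far h t
  omega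

theorem card_le_rows {f : ℕ → ℕ} {w κ : ℕ} (h : Hgt f w κ) (D' : Finset (ℕ × ℕ))
    (hD : ∀ d, d ∈ D' ↔ d.1 < f d.2) : D'.card ≤ ∑ y ∈ range (w + κ), f y := by
  classical
  have h1 : D' ⊆ (range (w + κ)).biUnion (fun y => (range (f y)).image (fun x => (x, y))) := by
    intro d hd
    have h2 := (hD d).1 hd
    have h3 : d.2 < w + κ := by
      by_contra h4
      have h5 := hgt_zero h (not_lt.1 h4)
      omega
    refine mem_biUnion.2 ⟨d.2, mem_range.2 h3, mem_image.2 ⟨d.1, mem_range.2 h2, rfl⟩⟩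
  refine (card_le_card h1).trans (card_biUnion_le.trans (sum_le_sum fun y _ => ?_))
  exact card_image_le.trans (by rw [card_range])

theorem sum_tri (κ : ℕ) : 2 * ∑ t ∈ range κ, (κ - t) = κ * (κ + 1) := by
  induction κ with
  | zero => simp
  | succ n ih =>
    rw [sum_range_succ']
    have h1 : ∑ t ∈ range n, (n + 1 - (t + 1)) = ∑ t ∈ range n, (n - t) :=
      sum_congr rfl fun t _ => by omega
    rw [h1, Nat.mul_add, ih]
    simp only [Nat.sub_zero]
    ring

theorem card_bound {f : ℕ → ℕ} {w κ : ℕ} (h : Hgt f w κ) (D' : Finset (ℕ × ℕ))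
    (hD : ∀ d, d ∈ D' ↔ d.1 < f d.2) : 2 * D'.card ≤ 2 * (w * κ) + κ * (κ + 1) := by
  have h1 := card_le_rows h D' hD
  rw [sum_range_add] at h1
  have h2 : ∑ y ∈ range w, f y = w * κ := by
    rw [sum_congr rfl (fun y hy => h.wall y (mem_range.1 hy)), sum_const, card_range, smul_eq_mul]
  have h3 : ∑ t ∈ range κ, f (w + t) ≤ ∑ t ∈ range κ, (κ - t) :=
    sum_le_sum fun t _ => hgt_far h t
  have h4 := sum_tri κ
  omega

theorem goalH2 (h1 : GoalF1) (h2 : GoalF2) : GoalH2 := by
  intro f w κ M D' hf hD hM1 hMκ hκM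
  have hreg : Reg 0 (w + κ) (fun _ => 0) f D' := by
    refine ⟨fun d => ?_, fun y _ k _ _ => by simp⟩
    rw [hD]
    simp only [zero_mul, zero_add, Nat.zero_le, true_and]
    refine ⟨fun h3 => ⟨?_, h3⟩, fun h3 => h3.2⟩
    by_contra h4
    have h5 := hgt_zero hf (not_lt.1 h4)
    omega
  have hmono : ∀ y, y + 1 < w + κ → f (w + κ - 1 - y) ≤ f (w + κ - 1 - (y + 1)) := by
    intro y hy
    have h3 : w + κ - 1 - y = w + κ - 1 - (y + 1) + 1 := by omega
    rw [h3]
    exact hgt_succ hf _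
  have hthick : ∀ y, κ ≤ y → y + 1 < w + κ → f (w + κ - 1 - y) = κ := by
    intro y hy hy2
    exact hf.wall _ (by omega)
  refine ⟨?_, ?_⟩
  · intro m a b hab hm hsum
    refine h1 0 M (w + κ) (fun _ => 0) f (fun y => f (w + κ - 1 - y)) D'
      (Icc 1 (min κ (w + κ - 1))) hreg (Or.inr fun y _ => rfl) hM1 (by omega)
      (by simp) (fun y hy => (hmono y hy).trans (Nat.le_succ _)) ?_ m a b (7 * M ^ 2) hab hm
      (Or.inr ?_) hsum
    · intro y hy hyB
      left
      refine ⟨hmono y hy, ?_⟩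
      have h3 : κ ≤ y := by
        by_contra h4
        apply hyB
        rw [mem_Icc]
        omega
      show M ≤ f (w + κ - 1 - y)
      rw [hthick y h3 hy]
      exact hMκ
    · have hc : (Icc 1 (min κ (w + κ - 1))).card ≤ 2 * M := by
        rw [Nat.card_Icc]
        omega
      have hcl : cl (w + κ) (Icc 1 (min κ (w + κ - 1))) ≤ 1 := by
        unfold cl
        refine card_le_one.2 ?_
        intro x hx z hz
        rw [mem_filter, mem_Icc, mem_Icc] at hx hz
        omega
      have h0 : (fun y => f (w + κ - 1 - y)) (w + κ - 1) ≤ 2 * M := by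
        show f _ ≤ 2 * M
        exact (hf.le _).trans hκM
      have e1 : 2 * M * (Icc 1 (min κ (w + κ - 1))).card ≤ 2 * M * (2 * M) :=
        Nat.mul_le_mul_left _ hc
      have e2 : M * (M - 1) * cl (w + κ) (Icc 1 (min κ (w + κ - 1))) ≤ M * M * 1 :=
        Nat.mul_le_mul (Nat.mul_le_mul_left _ (Nat.sub_le _ _)) hcl
      have e3 : 2 * M * ((fun y => f (w + κ - 1 - y)) (w + κ - 1) + 2 * M) ≤
          2 * M * (2 * M + 2 * M) := Nat.mul_le_mul_left _ (Nat.add_le_add_right h0 _)
      nlinarith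
  · intro m a b hab hm hsum
    have hcard := card_bound hf D' hD
    have hk2 : κ * (κ + 1) ≤ 2 * M * (2 * M + 1) := Nat.mul_le_mul hκM (by omega)
    rcases Nat.lt_or_ge w M with hw | hw
    · exfalso
      have e1 : w * κ ≤ M * (2 * M) := Nat.mul_le_mul hw.le hκM
      have e2 : w * κ + κ ≤ M * (2 * M) := by
        have : (w + 1) * κ ≤ M * (2 * M) := Nat.mul_le_mul hw hκM
        nlinarith
      have e3 : 1 * 1 ≤ M * M := Nat.mul_le_mul hM1 hM1
      have e4 : 5 * M ^ 2 ≤ D'.card := by omega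
      nlinarith
    · refine h2 0 M (w + κ) κ (w + κ - M) (fun _ => 0) f (fun y => f (w + κ - 1 - y)) D'
        hreg (Or.inr fun y _ => rfl) hM1 (by omega) (by omega)
        (fun y hy => (hmono y hy).trans (Nat.le_succ _)) ?_ (Or.inr (by omega)) m a b hab hm ?_
      · intro y hy1 hy2
        left
        refine ⟨hmono y (by omega), ?_⟩
        show M ≤ f (w + κ - 1 - y)
        rw [hthick y hy1 (by omega)]
        exact hMκ
      · have h3 : ∑ y ∈ Ico κ (w + κ - M), (fun y => f (w + κ - 1 - y)) y = (w - M) * κ := by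
          rw [sum_congr rfl (g := fun _ => κ) (fun y hy => ?_)]
          · rw [sum_const, Nat.card_Ico, smul_eq_mul]
            congr 1
            omega
          · rw [mem_Ico] at hy
            exact hthick y hy.1 (by omega)
        rw [h3]
        obtain ⟨v, rfl⟩ := Nat.exists_eq_add_of_le hw
        have h4 : M + v - M = v := by omega
        rw [h4]
        have e1 : M * κ ≤ M * (2 * M) := Nat.mul_le_mul_left _ hκM
        nlinarith

end Pool.Agent.Helper43.Gm.PkH2
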